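import Pool.Agent.Work.MP_e17eac_co.Bd.B19

/-!
# Most edges are hygienic
-/

set_option autoImplicit false

namespace Pool.Agent.Work.MP_e17eac_co.B1

open Finset
open Pool.Agent.Work.MP_e17eac_co.DH
open Pool.Agent.Work.MP_e17eac_co.DH.XSWEEP (GP)

namespace XHYG

lemma bi {α β : Type} [DecidableEq β] (s : Finset α) (f : α → Finset β) (B : ℝ)
    (h : ∀ a ∈ s, ((f a).card : ℝ) ≤ B) : ((s.biUnion f).card : ℝ) ≤ s.card * B := by
  calc ((s.biUnion f).card : ℝ) ≤ ((∑ a ∈ s, (f a).card : ℕ) : ℝ) := by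
        exact_mod_cast Finset.card_biUnion_le
    _ = ∑ a ∈ s, ((f a).card : ℝ) := by push_cast; rfl
    _ ≤ s.card • B := Finset.sum_le_card_nsmul _ _ _ h
    _ = s.card * B := by rw [nsmul_eq_mul]

/-- Numerical bound. -/
lemma num1 {F w C u H0 N : ℝ} (_hF : 0 ≤ F) (hw : 1 ≤ w) (hC : 1 ≤ C) (hu : 0 ≤ u)
    (huN : u ≤ H0 * N) (h : F ^ 3 * w ^ 3 ≤ 4096 * C * u ^ 3) :
    F ≤ 18 * C ^ 2 * H0 * w⁻¹ * N := by
  have hw0 : 0 < w := by linarith
  have h1 : (F * w) ^ 3 ≤ (16 * C * u) ^ 3 := by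
    have h2 : C ≤ C ^ 3 := by
      have : 1 ≤ C ^ 2 := one_le_pow₀ hC
      nlinarith
    have h3 : 0 ≤ u ^ 3 := by positivity
    calc (F * w) ^ 3 = F ^ 3 * w ^ 3 := by ring
      _ ≤ 4096 * C * u ^ 3 := h
      _ ≤ 4096 * C ^ 3 * u ^ 3 := by nlinarith
      _ = (16 * C * u) ^ 3 := by ring
  have h2 : F * w ≤ 16 * C * u := by
    refine le_of_pow_le_pow_left₀ (n := 3) (by norm_num) (by positivity) h1
  have h3 : 16 * C * u ≤ 18 * C ^ 2 * (H0 * N) := by
    have h4 : C ≤ C ^ 2 := by nlinarith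
    have h5 : 0 ≤ H0 * N := hu.trans huN
    calc 16 * C * u ≤ 16 * C * (H0 * N) := by gcongr
      _ ≤ 16 * C ^ 2 * (H0 * N) := by gcongr
      _ ≤ 18 * C ^ 2 * (H0 * N) := by nlinarith [mul_nonneg (sq_nonneg C) h5]
  have h4 : F = F * w * w⁻¹ := by field_simp
  rw [h4]
  calc F * w * w⁻¹ ≤ 18 * C ^ 2 * (H0 * N) * w⁻¹ :=
        mul_le_mul_of_nonneg_right (h2.trans h3) (inv_nonneg.2 hw0.le)
    _ = 18 * C ^ 2 * H0 * w⁻¹ * N := by ring

/-- Numerical bound for the crowded cells. -/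
lemma num2 {C w R : ℝ} (x : ℕ) (hC : 1 ≤ C) (hw : 1 ≤ w) (hR : 1 ≤ R) :
    (C * R ^ (3 * x) / w) ^ ((4 : ℝ) / 3) ≤ C ^ 2 * R ^ (4 * x) * w⁻¹ := by
  have hw0 : 0 < w := by linarith
  have hR0 : 0 < R := by linarith
  have hC0 : 0 < C := by linarith
  have h1 : (C * R ^ (3 * x) / w) = (C / w) * R ^ (3 * x) := by ring
  rw [h1, Real.mul_rpow (by positivity) (by positivity)]
  have h2 : (R ^ (3 * x)) ^ ((4 : ℝ) / 3) = R ^ (4 * x) := by
    rw [← Real.rpow_natCast R (3 * x), ← Real.rpow_mul hR0.le, ← Real.rpow_natCast R (4 * x)]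
    congr 1
    push_cast
    ring
  rw [h2]
  have h3 : (C / w) ^ ((4 : ℝ) / 3) ≤ C ^ 2 * w⁻¹ := by
    rcases le_total 1 (C / w) with h | h
    · calc (C / w) ^ ((4 : ℝ) / 3) ≤ (C / w) ^ (2 : ℝ) :=
            Real.rpow_le_rpow_of_exponent_le h (by norm_num)
        _ = (C / w) ^ 2 := by norm_cast
        _ = C ^ 2 * w⁻¹ * w⁻¹ := by field_simp
        _ ≤ C ^ 2 * w⁻¹ * 1 := by
            gcongr
            exact inv_le_one_of_one_le₀ hw
        _ = C ^ 2 * w⁻¹ := by ring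
    · calc (C / w) ^ ((4 : ℝ) / 3) ≤ (C / w) ^ (1 : ℝ) :=
            Real.rpow_le_rpow_of_exponent_ge (by positivity) h (by norm_num)
        _ = C * w⁻¹ := by rw [Real.rpow_one]; ring
        _ ≤ C ^ 2 * w⁻¹ := by
            gcongr
            nlinarith
  calc (C / w) ^ ((4 : ℝ) / 3) * R ^ (4 * x) ≤ C ^ 2 * w⁻¹ * R ^ (4 * x) := by gcongr
    _ = C ^ 2 * R ^ (4 * x) * w⁻¹ := by ring

section

variable {ι : Type} [Fintype ι] [DecidableEq ι] (K : KSys ι) (r m : ℕ) (H w : ℝ)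

open Classical in
/-- Edges in crowded cells. -/
noncomputable def BC (x : ℕ) : Finset ℕ := (range K.N).filter (fun i =>
  w * (Fintype.card ι : ℝ) < ((vis K r x (cell K r x i)).card : ℝ) * (r : ℝ) ^ (3 * x))

open Classical in
/-- Edges in heavy pairs. -/
noncomputable def BL (s : Bool) (x : ℕ) : Finset ℕ := (range K.N).filter (fun i =>
  H * (K.N : ℝ) < (((range K.N).filter (fun j => K.ln s j = K.ln s i ∧
    cell K r x j = cell K r x i)).card : ℝ) * (Fintype.card ι * (r : ℝ) ^ x) ∧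
  ((vis K r x (cell K r x i)).card : ℝ) * (r : ℝ) ^ (3 * x) ≤ w * (Fintype.card ι : ℝ))

open Classical in
/-- Edges with a relatively atypical line. -/
noncomputable def BR (s : Bool) (z x : ℕ) : Finset ℕ := (range K.N).filter (fun i =>
  H * (r : ℝ) ^ (x - z) < (Wr K r z (cell K r z i) x (K.ln s i) : ℝ) ∧ z ≤ x ∧
  ((vis K r z (cell K r z i)).card : ℝ) * (r : ℝ) ^ (3 * z) ≤ w * (Fintype.card ι : ℝ))

open Classical in
/-- Edges with an atypical line. -/
noncomputable def BP (s : Bool) (x : ℕ) : Finset ℕ := (range K.N).filter (fun i =>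
  H * (r : ℝ) ^ x < (W K r x (K.ln s i) : ℝ))

variable {K r m H w}

lemma ln_mem (s : Bool) {i : ℕ} {E : Finset ℕ} (hi : i ∈ E) : K.ln s i ∈ K.lines E := by
  cases s
  · exact mem_union_left _ (mem_image_of_mem _ hi)
  · exact mem_union_right _ (mem_image_of_mem _ hi)

lemma mem_ce {x i : ℕ} (hi : i < K.N) : i ∈ ce K r x (cell K r x i) :=
  mem_filter.mpr ⟨mem_range.mpr hi, rfl⟩

lemma cBC (h : StCell) {C : ℝ} {x : ℕ} (hr : 1 ≤ r) (hx : x ≤ m) (hN : r ^ (4 * m) ≤ K.N)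
    (hw : 1 ≤ w) (hC : 1 ≤ C) (hn : (0 : ℝ) < Fintype.card ι)
    (hcr : (((range (r ^ (4 * x))).filter (fun c => w * (Fintype.card ι : ℝ) / (r : ℝ) ^ (3 * x) ≤
      ((vis K r x c).card : ℝ))).card : ℝ) ≤
      (C * (Fintype.card ι : ℝ) / (w * (Fintype.card ι : ℝ) / (r : ℝ) ^ (3 * x))) ^
        ((4 : ℝ) / 3)) :
    ((BC K r w x).card : ℝ) ≤ 2 * C ^ 2 * w⁻¹ * K.N := by
  have hR : (1 : ℝ) ≤ r := by exact_mod_cast hr
  have hR0 : (0 : ℝ) < r := by linarith
  have hw0 : 0 < w := by linarith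
  obtain ⟨hc1, -, -, -, hc5, -⟩ := h ι K r x hr
  set Cr := (range (r ^ (4 * x))).filter (fun c => w * (Fintype.card ι : ℝ) /
    (r : ℝ) ^ (3 * x) ≤ ((vis K r x c).card : ℝ)) with hCr
  have e1 : C * (Fintype.card ι : ℝ) / (w * (Fintype.card ι : ℝ) / (r : ℝ) ^ (3 * x)) =
      C * (r : ℝ) ^ (3 * x) / w := by
    field_simp
  rw [e1] at hcr
  have h1 : BC K r w x ⊆ Cr.biUnion (ce K r x) := by
    intro i hi
    simp only [BC, mem_filter, mem_range] at hi
    obtain ⟨hi1, hi2⟩ := hi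
    rw [mem_biUnion]
    refine ⟨cell K r x i, ?_, mem_ce hi1⟩
    rw [hCr, mem_filter, mem_range]
    refine ⟨hc1 i hi1, ?_⟩
    rw [div_le_iff₀ (by positivity)]
    exact hi2.le
  have hpow : r ^ (4 * x) ≤ K.N :=
    (Nat.pow_le_pow_right (by omega) (by omega)).trans hN
  have h2 : (BC K r w x).card * r ^ (4 * x) ≤ Cr.card * (2 * K.N) := by
    calc (BC K r w x).card * r ^ (4 * x)
        ≤ (∑ c ∈ Cr, (ce K r x c).card) * r ^ (4 * x) := by
          gcongr
          exact (card_le_card h1).trans card_biUnion_le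
      _ = ∑ c ∈ Cr, (ce K r x c).card * r ^ (4 * x) := sum_mul _ _ _
      _ ≤ ∑ c ∈ Cr, 2 * K.N := by
          refine sum_le_sum fun c _ => ?_
          have := hc5 c
          omega
      _ = Cr.card * (2 * K.N) := by rw [sum_const, smul_eq_mul]
  have h3 : ((BC K r w x).card : ℝ) * (r : ℝ) ^ (4 * x) ≤ (Cr.card : ℝ) * (2 * K.N) := by
    exact_mod_cast h2
  have h4 : ((BC K r w x).card : ℝ) * (r : ℝ) ^ (4 * x) ≤
      (2 * C ^ 2 * w⁻¹ * K.N) * (r : ℝ) ^ (4 * x) := by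
    calc ((BC K r w x).card : ℝ) * (r : ℝ) ^ (4 * x) ≤ (Cr.card : ℝ) * (2 * K.N) := h3
      _ ≤ (C ^ 2 * (r : ℝ) ^ (4 * x) * w⁻¹) * (2 * K.N) := by
          have := hcr.trans (num2 x hC hw hR)
          gcongr
      _ = (2 * C ^ 2 * w⁻¹ * K.N) * (r : ℝ) ^ (4 * x) := by ring
  exact le_of_mul_le_mul_right h4 (by positivity)

lemma cBP {C u H0 : ℝ} {x : ℕ} (s : Bool) (hr : 1 ≤ r)
    (hw : 1 ≤ w) (hH : H = w ^ 6) (hC : 1 ≤ C) (hu : 0 ≤ u)
    (hu3 : u ^ 3 = (Fintype.card ι : ℝ) ^ 4) (huN : u ≤ H0 * K.N)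
    (hW : ∑ p : ι, (W K r x p : ℝ) ≤ C * Fintype.card ι * (r : ℝ) ^ x)
    (hL : ((BP K r H s x).card : ℝ) ^ 3 ≤ 4096 * (Fintype.card ι : ℝ) ^ 3 *
      (((BP K r H s x).image (K.ln s)).card : ℝ)) :
    ((BP K r H s x).card : ℝ) ≤ 18 * C ^ 2 * H0 * w⁻¹ * K.N := by
  classical
  have hR : (1 : ℝ) ≤ r := by exact_mod_cast hr
  have hR0 : (0 : ℝ) < r := by linarith
  have hw0 : 0 < w := by linarith
  set bad : Finset ι := univ.filter (fun p => H * (r : ℝ) ^ x < (W K r x p : ℝ)) with hbad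
  have h1 : (BP K r H s x).image (K.ln s) ⊆ bad := by
    intro p hp
    rw [mem_image] at hp
    obtain ⟨i, hi, rfl⟩ := hp
    simp only [BP, mem_filter, mem_range] at hi
    rw [hbad, mem_filter]
    exact ⟨mem_univ _, hi.2⟩
  have h2 : (bad.card : ℝ) * (H * (r : ℝ) ^ x) ≤ C * Fintype.card ι * (r : ℝ) ^ x := by
    calc (bad.card : ℝ) * (H * (r : ℝ) ^ x) = ∑ p ∈ bad, H * (r : ℝ) ^ x := by
          rw [sum_const, nsmul_eq_mul]
      _ ≤ ∑ p ∈ bad, (W K r x p : ℝ) := by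
          refine sum_le_sum fun p hp => ?_
          rw [hbad, mem_filter] at hp
          exact hp.2.le
      _ ≤ ∑ p : ι, (W K r x p : ℝ) :=
          sum_le_sum_of_subset_of_nonneg (subset_univ _) fun _ _ _ => Nat.cast_nonneg _
      _ ≤ _ := hW
  have h3 : (bad.card : ℝ) * H ≤ C * Fintype.card ι := by
    refine le_of_mul_le_mul_right (a := (r : ℝ) ^ x) ?_ (by positivity)
    calc (bad.card : ℝ) * H * (r : ℝ) ^ x = (bad.card : ℝ) * (H * (r : ℝ) ^ x) := by ring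
      _ ≤ _ := h2
  have h4 : (((BP K r H s x).image (K.ln s)).card : ℝ) ≤ bad.card := by
    exact_mod_cast card_le_card h1
  refine num1 (Nat.cast_nonneg _) hw hC hu huN ?_
  rw [hu3]
  calc ((BP K r H s x).card : ℝ) ^ 3 * w ^ 3
      ≤ (4096 * (Fintype.card ι : ℝ) ^ 3 * (bad.card : ℝ)) * w ^ 6 := by
        have h5 : w ^ 3 ≤ w ^ 6 := pow_le_pow_right₀ hw (by norm_num)
        have h6 : ((BP K r H s x).card : ℝ) ^ 3 ≤
            4096 * (Fintype.card ι : ℝ) ^ 3 * (bad.card : ℝ) :=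
          hL.trans (by gcongr)
        exact mul_le_mul h6 h5 (by positivity) (by positivity)
    _ = 4096 * (Fintype.card ι : ℝ) ^ 3 * ((bad.card : ℝ) * H) := by rw [hH]; ring
    _ ≤ 4096 * (Fintype.card ι : ℝ) ^ 3 * (C * Fintype.card ι) := by gcongr
    _ = 4096 * C * (Fintype.card ι : ℝ) ^ 4 := by ring

/-- Final step for the bounds with FP. -/
lemma fin_FP {F n C u H0 w R N b : ℝ} {z : ℕ} (hF : 0 ≤ F) (hn : 0 ≤ n) (hR : 1 ≤ R)
    (hw : 1 ≤ w) (hC : 1 ≤ C) (hu : 0 ≤ u) (hu3 : u ^ 3 = n ^ 4) (huN : u ≤ H0 * N)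
    (hb : b * w ^ 6 ≤ C * n * R ^ z) (hFP : F ^ 3 * R ^ z ≤ 4096 * w ^ 3 * n ^ 3 * b) :
    F ≤ 18 * C ^ 2 * H0 * w⁻¹ * N := by
  have hR0 : 0 < R := by linarith
  have hw0 : 0 < w := by linarith
  refine num1 hF hw hC hu huN ?_
  rw [hu3]
  refine le_of_mul_le_mul_right (a := R ^ z * w ^ 3) ?_ (by positivity)
  calc F ^ 3 * w ^ 3 * (R ^ z * w ^ 3) = (F ^ 3 * R ^ z) * w ^ 6 := by ring
    _ ≤ (4096 * w ^ 3 * n ^ 3 * b) * w ^ 6 := by gcongr
    _ = 4096 * w ^ 3 * n ^ 3 * (b * w ^ 6) := by ring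
    _ ≤ 4096 * w ^ 3 * n ^ 3 * (C * n * R ^ z) := by gcongr
    _ = 4096 * C * n ^ 4 * (R ^ z * w ^ 3) := by ring

lemma cBR (h : StCell) {C u H0 : ℝ} {z x : ℕ} (s : Bool) (hr : 1 ≤ r) (hzx : z ≤ x)
    (hw : 1 ≤ w) (hH : H = w ^ 6) (hC : 1 ≤ C) (hu : 0 ≤ u)
    (hu3 : u ^ 3 = (Fintype.card ι : ℝ) ^ 4) (huN : u ≤ H0 * K.N)
    (hW : ∑ c ∈ range (r ^ (4 * z)), ∑ p : ι, (Wr K r z c x p : ℝ) ≤
      C * Fintype.card ι * (r : ℝ) ^ x)
    (hFP : ((BR K r H w s z x).card : ℝ) ^ 3 * (r : ℝ) ^ z ≤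
      4096 * w ^ 3 * (Fintype.card ι : ℝ) ^ 3 *
      (((BR K r H w s z x).image (fun i => (cell K r z i, K.ln s i))).card : ℝ)) :
    ((BR K r H w s z x).card : ℝ) ≤ 18 * C ^ 2 * H0 * w⁻¹ * K.N := by
  classical
  have hR : (1 : ℝ) ≤ r := by exact_mod_cast hr
  have hR0 : (0 : ℝ) < r := by linarith
  have hw0 : 0 < w := by linarith
  obtain ⟨hc1, -, -, -, -, -⟩ := h ι K r z hr
  set bad : Finset (ℕ × ι) := (range (r ^ (4 * z)) ×ˢ univ).filter (fun q =>
    H * (r : ℝ) ^ (x - z) < (Wr K r z q.1 x q.2 : ℝ)) with hbad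
  have h1 : (BR K r H w s z x).image (fun i => (cell K r z i, K.ln s i)) ⊆ bad := by
    intro q hq
    rw [mem_image] at hq
    obtain ⟨i, hi, rfl⟩ := hq
    simp only [BR, mem_filter, mem_range] at hi
    rw [hbad, mem_filter, mem_product, mem_range]
    exact ⟨⟨hc1 i hi.1, mem_univ _⟩, hi.2.1⟩
  have h2 : (bad.card : ℝ) * (H * (r : ℝ) ^ (x - z)) ≤
      C * Fintype.card ι * (r : ℝ) ^ x := by
    calc (bad.card : ℝ) * (H * (r : ℝ) ^ (x - z)) = ∑ q ∈ bad, H * (r : ℝ) ^ (x - z) := by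
          rw [sum_const, nsmul_eq_mul]
      _ ≤ ∑ q ∈ bad, (Wr K r z q.1 x q.2 : ℝ) := by
          refine sum_le_sum fun p hp => ?_
          rw [hbad, mem_filter] at hp
          exact hp.2.le
      _ ≤ ∑ q ∈ range (r ^ (4 * z)) ×ˢ (univ : Finset ι), (Wr K r z q.1 x q.2 : ℝ) :=
          sum_le_sum_of_subset_of_nonneg (filter_subset _ _) fun _ _ _ => Nat.cast_nonneg _
      _ = ∑ c ∈ range (r ^ (4 * z)), ∑ p : ι, (Wr K r z c x p : ℝ) := by
          rw [sum_product]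
      _ ≤ _ := hW
  have h3 : (bad.card : ℝ) * w ^ 6 ≤ C * Fintype.card ι * (r : ℝ) ^ z := by
    refine le_of_mul_le_mul_right (a := (r : ℝ) ^ (x - z)) ?_ (by positivity)
    have e : (r : ℝ) ^ x = (r : ℝ) ^ z * (r : ℝ) ^ (x - z) := by
      rw [← pow_add]
      congr 1
      omega
    rw [e, hH] at h2
    calc (bad.card : ℝ) * w ^ 6 * (r : ℝ) ^ (x - z) =
        (bad.card : ℝ) * (w ^ 6 * (r : ℝ) ^ (x - z)) := by ring
      _ ≤ _ := h2
      _ = _ := by ring
  have h4 : (((BR K r H w s z x).image (fun i => (cell K r z i, K.ln s i))).card : ℝ) ≤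
      bad.card := by
    exact_mod_cast card_le_card h1
  refine fin_FP (Nat.cast_nonneg _) (Nat.cast_nonneg (Fintype.card ι)) hR hw hC hu hu3 huN h3 ?_
  refine hFP.trans ?_
  gcongr

lemma cBL {C u H0 : ℝ} {x : ℕ} (s : Bool) (hr : 1 ≤ r) (hN : 0 < K.N)
    (hw : 1 ≤ w) (hH : H = w ^ 6) (hC : 1 ≤ C) (hu : 0 ≤ u)
    (hu3 : u ^ 3 = (Fintype.card ι : ℝ) ^ 4) (huN : u ≤ H0 * K.N)
    (hFP : ((BL K r H w s x).card : ℝ) ^ 3 * (r : ℝ) ^ x ≤
      4096 * w ^ 3 * (Fintype.card ι : ℝ) ^ 3 *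
      (((BL K r H w s x).image (fun i => (cell K r x i, K.ln s i))).card : ℝ)) :
    ((BL K r H w s x).card : ℝ) ≤ 18 * C ^ 2 * H0 * w⁻¹ * K.N := by
  classical
  have hR : (1 : ℝ) ≤ r := by exact_mod_cast hr
  have hR0 : (0 : ℝ) < r := by linarith
  have hw0 : 0 < w := by linarith
  have hN0 : (0 : ℝ) < K.N := by exact_mod_cast hN
  set f : ℕ → ℕ × ι := fun i => (cell K r x i, K.ln s i) with hf
  set P : Finset (ℕ × ι) := (BL K r H w s x).image f with hP
  have h1 : ∑ q ∈ P, ((range K.N).filter (fun j => f j = q)).card ≤ K.N := by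
    have e1 : ((range K.N).filter (fun j => f j ∈ P)).card =
        ∑ q ∈ P, (((range K.N).filter (fun j => f j ∈ P)).filter (fun j => f j = q)).card :=
      card_eq_sum_card_fiberwise fun j hj => (mem_filter.mp hj).2
    have e2 : ∑ q ∈ P, ((range K.N).filter (fun j => f j = q)).card =
        ∑ q ∈ P, (((range K.N).filter (fun j => f j ∈ P)).filter (fun j => f j = q)).card := by
      refine sum_congr rfl fun q hq => ?_
      congr 1
      ext j
      simp only [mem_filter, mem_range]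
      constructor
      · rintro ⟨a, b⟩
        exact ⟨⟨a, b ▸ hq⟩, b⟩
      · rintro ⟨⟨a, -⟩, b⟩
        exact ⟨a, b⟩
    rw [e2, ← e1]
    calc ((range K.N).filter (fun j => f j ∈ P)).card ≤ (range K.N).card := card_filter_le _ _
      _ = K.N := card_range _
  have h2 : (P.card : ℝ) * (H * K.N) ≤ K.N * (Fintype.card ι * (r : ℝ) ^ x) := by
    calc (P.card : ℝ) * (H * K.N) = ∑ q ∈ P, H * (K.N : ℝ) := by
          rw [sum_const, nsmul_eq_mul]
      _ ≤ ∑ q ∈ P, (((range K.N).filter (fun j => f j = q)).card : ℝ) *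
            (Fintype.card ι * (r : ℝ) ^ x) := by
          refine sum_le_sum fun q hq => ?_
          rw [hP, mem_image] at hq
          obtain ⟨i, hi, rfl⟩ := hq
          simp only [BL, mem_filter, mem_range] at hi
          have e : (range K.N).filter (fun j => K.ln s j = K.ln s i ∧
              cell K r x j = cell K r x i) = (range K.N).filter (fun j => f j = f i) := by
            ext j
            simp only [mem_filter, mem_range, hf, Prod.mk.injEq]
            tauto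
          rw [← e]
          exact hi.2.1.le
      _ = (∑ q ∈ P, (((range K.N).filter (fun j => f j = q)).card : ℝ)) *
            (Fintype.card ι * (r : ℝ) ^ x) := by rw [sum_mul]
      _ ≤ K.N * (Fintype.card ι * (r : ℝ) ^ x) := by
          gcongr
          exact_mod_cast h1
  have h3 : (P.card : ℝ) * w ^ 6 ≤ C * Fintype.card ι * (r : ℝ) ^ x := by
    refine le_of_mul_le_mul_right (a := (K.N : ℝ)) ?_ hN0
    calc (P.card : ℝ) * w ^ 6 * K.N = (P.card : ℝ) * (H * K.N) := by rw [hH]; ring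
      _ ≤ K.N * (Fintype.card ι * (r : ℝ) ^ x) := h2
      _ = 1 * (Fintype.card ι * (r : ℝ) ^ x * K.N) := by ring
      _ ≤ C * (Fintype.card ι * (r : ℝ) ^ x * K.N) := by gcongr
      _ = _ := by ring
  exact fin_FP (Nat.cast_nonneg _) (Nat.cast_nonneg (Fintype.card ι)) hR hw hC hu hu3 huN h3 hFP

/-- Edges outside of the bad sets are hygienic. -/
lemma hyg_of {i : ℕ} (hi : i < K.N) (hwH : w ≤ H)
    (h1 : ∀ x, x ≤ m → i ∉ BC K r w x) (h2 : ∀ s x, x ≤ m → i ∉ BL K r H w s x)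
    (h3 : ∀ s z x, z ≤ x → x ≤ m → i ∉ BR K r H w s z x)
    (h4 : ∀ s x, x ≤ m → i ∉ BP K r H s x) : Hyg K r m H i := by
  have hc : ∀ x, x ≤ m → ((vis K r x (cell K r x i)).card : ℝ) * (r : ℝ) ^ (3 * x) ≤
      w * Fintype.card ι := by
    intro x hx
    by_contra hh
    rw [not_le] at hh
    exact h1 x hx (mem_filter.mpr ⟨mem_range.mpr hi, hh⟩)
  refine ⟨hi, ?_, ?_, ?_, ?_⟩
  · intro s
    unfold PS
    rw [mem_filter]
    refine ⟨ln_mem s (mem_range.mpr hi), fun x hx => ?_⟩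
    by_contra hh
    rw [not_le] at hh
    exact h4 s x hx (mem_filter.mpr ⟨mem_range.mpr hi, hh⟩)
  · intro x hx
    refine (hc x hx).trans ?_
    gcongr
  · intro s x hx
    by_contra hh
    rw [not_le] at hh
    exact h2 s x hx (mem_filter.mpr ⟨mem_range.mpr hi, hh, hc x hx⟩)
  · intro s z hz
    unfold PSr
    rw [mem_filter]
    refine ⟨ln_mem s (mem_ce hi), fun x hzx hx => ?_⟩
    by_contra hh
    rw [not_le] at hh
    exact h3 s z x hzx hx (mem_filter.mpr ⟨mem_range.mpr hi, hh, hzx, hc z hz⟩)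

end

end XHYG

open XHYG in
theorem I_HYG (h : StCell) (_h2 : StCellTok) (hT : StT2c) (hF : StFP) (hL : StFL) :
    StHygCnt := by
  classical
  obtain ⟨C, hC1, hC⟩ := hT
  refine ⟨126 * C ^ 2, by nlinarith, ?_⟩
  intro ι _ _ K inj gp r m H H0 hr hH hH0 hN hdense
  have hH00 : (0 : ℝ) < H := by linarith
  set w : ℝ := H ^ ((1 : ℝ) / 6) with hwdef
  have hw1 : 1 ≤ w := Real.one_le_rpow hH (by norm_num)
  have hw0 : 0 < w := by linarith
  have hw6 : H = w ^ 6 := by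
    rw [hwdef, ← Real.rpow_natCast, ← Real.rpow_mul hH00.le]
    norm_num
  have hwinv : H ^ (-((1 : ℝ) / 6)) = w⁻¹ := by
    rw [Real.rpow_neg hH00.le]
  have hwH : w ≤ H := by
    rw [hw6]
    exact le_self_pow₀ hw1 (by norm_num)
  have hne : Nonempty ι := ⟨K.a 0⟩
  have hn : (0 : ℝ) < Fintype.card ι := by exact_mod_cast Fintype.card_pos
  have hN0 : 0 < K.N := lt_of_lt_of_le (Nat.pow_pos (by omega)) hN
  have hNR : (0 : ℝ) < K.N := by exact_mod_cast hN0
  set u : ℝ := (Fintype.card ι : ℝ) ^ ((4 : ℝ) / 3) with hudef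
  have hu0 : 0 ≤ u := by positivity
  have hu3 : u ^ 3 = (Fintype.card ι : ℝ) ^ 4 := by
    rw [hudef, ← Real.rpow_natCast, ← Real.rpow_mul hn.le, ← Real.rpow_natCast]
    norm_num
  have hall := fun x => hC ι K inj gp r x hr
  set B : ℝ := 18 * C ^ 2 * H0 * w⁻¹ * K.N with hB
  have hB0 : 0 ≤ B := by positivity
  have bC : ∀ x, x ≤ m → ((BC K r w x).card : ℝ) ≤ B := by
    intro x hx
    refine (cBC (m := m) h hr hx hN hw1 hC1 hn ?_).trans ?_
    · exact (hall x).2.2.2.2 _ (by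
        have : (0 : ℝ) < r := by exact_mod_cast (by omega : 0 < r)
        positivity)
    · rw [hB]
      have h5 : 0 ≤ C ^ 2 * w⁻¹ * K.N := by positivity
      have h6 : C ^ 2 * w⁻¹ * K.N ≤ H0 * (C ^ 2 * w⁻¹ * K.N) := le_mul_of_one_le_left h5 hH0
      nlinarith
  have bP : ∀ s x, x ≤ m → ((BP K r H s x).card : ℝ) ≤ B := by
    intro s x hx
    exact cBP s hr hw1 hw6 hC1 hu0 hu3 hdense (hall x).2.1
      (hL ι K inj _ (filter_subset _ _) s).1
  have bR : ∀ s z x, z ≤ x → x ≤ m → ((BR K r H w s z x).card : ℝ) ≤ B := by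
    intro s z x hzx hx
    refine cBR h s hr hzx hw1 hw6 hC1 hu0 hu3 hdense ((hall x).2.2.1 z hzx) ?_
    exact (hF ι K inj r z hr w hw0.le _ (filter_subset _ _)
      (fun i hi => (mem_filter.mp hi).2.2.2) s).1
  have bL : ∀ s x, x ≤ m → ((BL K r H w s x).card : ℝ) ≤ B := by
    intro s x hx
    refine cBL s hr hN0 hw1 hw6 hC1 hu0 hu3 hdense ?_
    exact (hF ι K inj r x hr w hw0.le _ (filter_subset _ _)
      (fun i hi => (mem_filter.mp hi).2.2) s).1
  set A1 := (range (m + 1)).biUnion (BC K r w) with hA1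
  set A2 := ((univ : Finset Bool) ×ˢ range (m + 1)).biUnion
    (fun q => BL K r H w q.1 q.2) with hA2
  set A3 := ((univ : Finset Bool) ×ˢ ((range (m + 1) ×ˢ range (m + 1)).filter
    (fun q => q.1 ≤ q.2))).biUnion (fun q => BR K r H w q.1 q.2.1 q.2.2) with hA3
  set A4 := ((univ : Finset Bool) ×ˢ range (m + 1)).biUnion
    (fun q => BP K r H q.1 q.2) with hA4
  have c1 : (A1.card : ℝ) ≤ ((m : ℝ) + 1) * B := by
    have := bi (range (m + 1)) (BC K r w) B (fun x hx => bC x (by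
      rw [mem_range] at hx; omega))
    rw [card_range] at this
    push_cast at this
    exact this
  have c2 : (A2.card : ℝ) ≤ (2 * ((m : ℝ) + 1)) * B := by
    have := bi ((univ : Finset Bool) ×ˢ range (m + 1)) (fun q => BL K r H w q.1 q.2) B
      (fun q hq => bL q.1 q.2 (by
        rw [mem_product, mem_range] at hq; omega))
    rw [card_product, card_range, card_univ, Fintype.card_bool] at this
    push_cast at this
    exact this
  have c4 : (A4.card : ℝ) ≤ (2 * ((m : ℝ) + 1)) * B := by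
    have := bi ((univ : Finset Bool) ×ˢ range (m + 1)) (fun q => BP K r H q.1 q.2) B
      (fun q hq => bP q.1 q.2 (by
        rw [mem_product, mem_range] at hq; omega))
    rw [card_product, card_range, card_univ, Fintype.card_bool] at this
    push_cast at this
    exact this
  have c3 : (A3.card : ℝ) ≤ (2 * (((m : ℝ) + 1) * ((m : ℝ) + 1))) * B := by
    have h5 := bi ((univ : Finset Bool) ×ˢ ((range (m + 1) ×ˢ range (m + 1)).filter
      (fun q => q.1 ≤ q.2))) (fun q => BR K r H w q.1 q.2.1 q.2.2) B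
      (fun q hq => by
        rw [mem_product, mem_filter, mem_product, mem_range, mem_range] at hq
        exact bR q.1 q.2.1 q.2.2 hq.2.2 (by omega))
    have h6 : ((univ : Finset Bool) ×ˢ ((range (m + 1) ×ˢ range (m + 1)).filter
      (fun q => q.1 ≤ q.2))).card ≤ 2 * ((m + 1) * (m + 1)) := by
      rw [card_product, card_univ, Fintype.card_bool]
      have : ((range (m + 1) ×ˢ range (m + 1)).filter (fun q : ℕ × ℕ => q.1 ≤ q.2)).card ≤
          (range (m + 1) ×ˢ range (m + 1)).card := card_filter_le _ _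
      rw [card_product, card_range] at this
      omega
    refine h5.trans ?_
    gcongr
    exact_mod_cast h6
  have hsub : (range K.N).filter (fun i => ¬ Hyg K r m H i) ⊆ A1 ∪ (A2 ∪ (A3 ∪ A4)) := by
    intro i hi
    rw [mem_filter, mem_range] at hi
    obtain ⟨hi1, hi2⟩ := hi
    by_contra hh
    apply hi2
    rw [mem_union, mem_union, mem_union, not_or, not_or, not_or] at hh
    obtain ⟨n1, n2, n3, n4⟩ := hh
    refine hyg_of (w := w) hi1 hwH ?_ ?_ ?_ ?_
    · intro x hx hm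
      exact n1 (mem_biUnion.mpr ⟨x, mem_range.mpr (by omega), hm⟩)
    · intro s x hx hm
      exact n2 (mem_biUnion.mpr ⟨(s, x), mem_product.mpr ⟨mem_univ _, mem_range.mpr
        (by simp only; omega)⟩, hm⟩)
    · intro s z x hzx hx hm
      refine n3 (mem_biUnion.mpr ⟨(s, (z, x)), mem_product.mpr ⟨mem_univ _,
        mem_filter.mpr ⟨mem_product.mpr ⟨mem_range.mpr (by simp only; omega),
          mem_range.mpr (by simp only; omega)⟩, hzx⟩⟩, hm⟩)
    · intro s x hx hm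
      exact n4 (mem_biUnion.mpr ⟨(s, x), mem_product.mpr ⟨mem_univ _, mem_range.mpr
        (by simp only; omega)⟩, hm⟩)
  have hcard : (((range K.N).filter (fun i => ¬ Hyg K r m H i)).card : ℝ) ≤
      A1.card + (A2.card + (A3.card + A4.card)) := by
    have h5 : ((range K.N).filter (fun i => ¬ Hyg K r m H i)).card ≤
        A1.card + (A2.card + (A3.card + A4.card)) := by
      refine (card_le_card hsub).trans ((card_union_le _ _).trans ?_)
      have := card_union_le A2 (A3 ∪ A4)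
      have := card_union_le A3 A4
      omega
    exact_mod_cast h5
  have hm : (0 : ℝ) ≤ m := Nat.cast_nonneg m
  have e : 126 * C ^ 2 * ((m : ℝ) + 1) ^ 2 * H0 * H ^ (-((1 : ℝ) / 6)) * K.N =
      7 * ((m : ℝ) + 1) ^ 2 * B := by
    rw [hwinv, hB]
    ring
  have hfin : (((range K.N).filter (fun i => ¬ Hyg K r m H i)).card : ℝ) ≤
      7 * ((m : ℝ) + 1) ^ 2 * B := by
    refine hcard.trans ?_
    have h7 : ((m : ℝ) + 1) * B ≤ ((m : ℝ) + 1) ^ 2 * B := by
      apply mul_le_mul_of_nonneg_right _ hB0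
      nlinarith
    nlinarith
  rw [e]
  exact hfin

end Pool.Agent.Work.MP_e17eac_co.B1
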